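import Mathlib
import Pool.Agent.W325.KZ.Defs

/-!
# Project KZ, part BIN

The coefficients of `Re (1 - y)^(-(1/2 + 6 i)) = cos (6 log (1 - y)) / sqrt (1 - y)` are
`O(1 / sqrt k)`.
-/

set_option autoImplicit false

namespace Pool.Agent.W253.KZ

open Complex

/-- the exponent -/
noncomputable def s0 : ℂ := 1 / 2 + 6 * I

/-- the binomial coefficients -/
noncomputable def cc (n : ℕ) : ℂ := Ring.choose (s0 + n - 1) n

lemma cc_fact (n : ℕ) : (n.factorial : ℂ) * cc n = (ascPochhammer ℕ n).smeval s0 := by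
  rw [← Ring.factorial_nsmul_multichoose_eq_ascPochhammer, nsmul_eq_mul]
  congr 1
  unfold cc Ring.choose
  congr 1
  ring

lemma cc_succ (n : ℕ) : ((n : ℂ) + 1) * cc (n + 1) = (s0 + n) * cc n := by
  have h1 := cc_fact n
  have h2 := cc_fact (n + 1)
  rw [ascPochhammer_succ_right, Polynomial.smeval_mul, ← h1] at h2
  have h3 : (n.factorial : ℂ) ≠ 0 := by exact_mod_cast Nat.factorial_ne_zero n
  have h4 : (Polynomial.X + (n : Polynomial ℕ)).smeval s0 = s0 + n := by
    rw [Polynomial.smeval_add, Polynomial.smeval_X, Polynomial.smeval_natCast]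
    simp
  rw [h4, Nat.factorial_succ] at h2
  push_cast at h2
  apply mul_left_cancel₀ h3
  linear_combination h2

lemma cc_zero : cc 0 = 1 := by
  unfold cc
  simp

lemma norm_s0 (n : ℕ) : ‖s0 + n‖ ^ 2 = ((n : ℝ) + 1 / 2) ^ 2 + 36 := by
  rw [← Complex.normSq_eq_norm_sq, Complex.normSq_apply]
  have h1 : (s0 + n).re = (n : ℝ) + 1 / 2 := by
    simp [s0]; ring
  have h2 : (s0 + n).im = 6 := by
    simp [s0]
  rw [h1, h2]; ring

lemma cc_norm_succ (n : ℕ) :
    ((n : ℝ) + 1) ^ 2 * ‖cc (n + 1)‖ ^ 2 = (((n : ℝ) + 1 / 2) ^ 2 + 36) * ‖cc n‖ ^ 2 := by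
  have h := congrArg (fun z => ‖z‖ ^ 2) (cc_succ n)
  simp only [norm_mul, mul_pow] at h
  rw [norm_s0] at h
  have h1 : ‖((n : ℂ) + 1)‖ = (n : ℝ) + 1 := by
    have : ((n : ℂ) + 1) = (((n : ℝ) + 1 : ℝ) : ℂ) := by push_cast; ring
    rw [this, Complex.norm_real, Real.norm_of_nonneg (by positivity)]
  rw [h1] at h
  exact h

/-- the bound -/
lemma cc_bd (n : ℕ) : ‖cc n‖ ^ 2 * ((n : ℝ) + 1) ≤ Real.exp (200 * (2 - 1 / ((n : ℝ) + 1))) := by
  induction n with
  | zero =>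
    rw [cc_zero]
    norm_num
  | succ n ih =>
    have h1 := cc_norm_succ n
    have hn : (0 : ℝ) ≤ n := Nat.cast_nonneg n
    -- ratio
    have h2 : ‖cc (n + 1)‖ ^ 2 * (((n + 1 : ℕ) : ℝ) + 1) =
        (‖cc n‖ ^ 2 * ((n : ℝ) + 1)) *
          ((((n : ℝ) + 1 / 2) ^ 2 + 36) * ((n : ℝ) + 2) / ((n : ℝ) + 1) ^ 3) := by
      rw [← mul_div_assoc, eq_div_iff (by positivity)]
      push_cast
      linear_combination (((n : ℝ) + 1) * ((n : ℝ) + 2)) * h1
    have h3 : ((((n : ℝ) + 1 / 2) ^ 2 + 36) * ((n : ℝ) + 2) / ((n : ℝ) + 1) ^ 3) ≤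
        Real.exp (200 * (1 / (((n : ℝ) + 1)) - 1 / ((n : ℝ) + 2))) := by
      refine le_trans ?_ (Real.add_one_le_exp _)
      rw [div_le_iff₀ (by positivity)]
      have e : 1 / ((n : ℝ) + 1) - 1 / ((n : ℝ) + 2) = 1 / (((n : ℝ) + 1) * ((n : ℝ) + 2)) := by
        field_simp; ring
      rw [e]
      have e2 : (200 * (1 / (((n : ℝ) + 1) * ((n : ℝ) + 2))) + 1) * ((n : ℝ) + 1) ^ 3 =
          (200 * ((n : ℝ) + 1) ^ 2 + ((n : ℝ) + 1) ^ 3 * ((n : ℝ) + 2)) / ((n : ℝ) + 2) := by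
        field_simp
      rw [e2, le_div_iff₀ (by positivity)]
      nlinarith [hn, mul_nonneg hn hn, mul_nonneg (mul_nonneg hn hn) hn]
    rw [h2]
    calc _ ≤ Real.exp (200 * (2 - 1 / ((n : ℝ) + 1))) *
          Real.exp (200 * (1 / (((n : ℝ) + 1)) - 1 / ((n : ℝ) + 2))) := by
          apply mul_le_mul ih h3 (by positivity) (Real.exp_nonneg _)
      _ = _ := by
          rw [← Real.exp_add]
          congr 1
          push_cast
          ring

theorem bin : Pool.Agent.W325.KZ.S_BIN := by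
  unfold Pool.Agent.W325.KZ.S_BIN
  refine ⟨fun k => (cc k).re, Real.sqrt (Real.exp 400), by positivity, ?_, ?_⟩
  · intro k
    have h0 := cc_bd k
    have h1 : ‖cc k‖ ^ 2 * ((k : ℝ) + 1) ≤ Real.exp 400 := by
      refine h0.trans (Real.exp_le_exp.2 ?_)
      have : (0 : ℝ) ≤ 1 / ((k : ℝ) + 1) := by positivity
      linarith
    have h2 : ‖cc k‖ * Real.sqrt ((k : ℝ) + 1) ≤ Real.sqrt (Real.exp 400) := by
      apply Real.le_sqrt_of_sq_le
      rw [mul_pow, Real.sq_sqrt (by positivity)]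
      exact h1
    rw [le_div_iff₀ (Real.sqrt_pos.2 (by positivity))]
    refine le_trans ?_ h2
    exact mul_le_mul_of_nonneg_right (Complex.abs_re_le_norm _) (Real.sqrt_nonneg _)
  · intro y hy0 hy1
    have hb := Complex.one_div_one_sub_cpow_hasFPowerSeriesOnBall_zero s0
    have hy : (y : ℂ) ∈ Metric.eball (0 : ℂ) 1 := by
      rw [← ENNReal.ofReal_one, Metric.eball_ofReal]
      simp [abs_of_nonneg hy0, hy1]
    have hs := hb.hasSum hy
    have hr := (Complex.reCLM.hasSum hs)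
    convert hr using 1
    · funext k
      simp only [FormalMultilinearSeries.ofScalars_apply_eq]
      change (cc k).re * y ^ k = (cc k • (y : ℂ) ^ k).re
      rw [smul_eq_mul, ← Complex.ofReal_pow, Complex.re_mul_ofReal]
    · simp only [zero_add]
      change _ = (1 / (1 - (y : ℂ)) ^ s0).re
      have hp : (0 : ℝ) < 1 - y := by linarith
      have e1 : (1 - (y : ℂ)) = ((1 - y : ℝ) : ℂ) := by push_cast; ring
      have hne : ((1 - y : ℝ) : ℂ) ≠ 0 := by exact_mod_cast hp.ne'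
      rw [e1, one_div, ← Complex.cpow_neg, Complex.cpow_def_of_ne_zero hne, ← Complex.ofReal_log hp.le,
        Complex.exp_re]
      have e2 : (((Real.log (1 - y) : ℝ) : ℂ) * -s0).re = -(1 / 2) * Real.log (1 - y) := by
        simp [s0]; ring
      have e3 : (((Real.log (1 - y) : ℝ) : ℂ) * -s0).im = -(6 * Real.log (1 - y)) := by
        simp [s0]; ring
      rw [e2, e3, Real.cos_neg, div_eq_inv_mul]
      congr 1
      rw [Real.sqrt_eq_rpow, Real.rpow_def_of_pos hp, ← Real.exp_neg]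
      congr 1
      ring

end Pool.Agent.W253.KZ
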